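import Pool.Agent.Q255.EP.Stm
import Pool.Agent.Q255.IC.Basic

/-! # Project EP (helper255): Azuma's inequality for fair signs as a count of words -/

set_option autoImplicit false

namespace Pool.Agent.Q190.EP

open Filter Topology MeasureTheory Pool.Agent.Q255.IC Pool.Agent.Q255.IR Pool.Agent.Q255.EP
open scoped ENNReal

/-- the extension of a word by `false` -/
def ext {n : ℕ} (s : Fin n → Bool) : ℕ → Bool := fun k => if h : k < n then s ⟨k, h⟩ else false

/-- the word with the sign `m` changed -/
def flip {n : ℕ} (m : Fin n) (s : Fin n → Bool) : Fin n → Bool := Function.update s m (!s m)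

theorem flip_flip {n : ℕ} (m : Fin n) (s : Fin n → Bool) : flip m (flip m s) = s := by
  unfold flip
  rw [Function.update_idem, Function.update_self, Bool.not_not, Function.update_eq_self]

theorem ext_flip_ne {n : ℕ} (m : Fin n) (s : Fin n → Bool) {i : ℕ} (hi : i ≠ m) : ext (flip m s) i = ext s i := by
  unfold ext flip
  split_ifs with h
  · rw [Function.update_of_ne]
    intro h2
    apply hi
    rw [← h2]
  · rfl

theorem sg_flip {n : ℕ} (m : Fin n) (s : Fin n → Bool) : sg (ext (flip m s)) m = - sg (ext s) m := by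
  have h1 : ext (flip m s) m = !(s m) := by
    unfold ext flip
    simp
  have h2 : ext s m = s m := by
    unfold ext
    simp
  unfold sg
  rw [h1, h2]
  cases s m <;> simp

theorem sum_flip {n : ℕ} (m : Fin n) (g : (Fin n → Bool) → ℝ) : ∑ s, g (flip m s) = ∑ s, g s :=
  Function.Bijective.sum_comp (Function.Involutive.bijective (flip_flip m)) g

/-- one step of the induction -/
theorem step {n : ℕ} (m : Fin n) (t d : ℝ) (F c : (ℕ → Bool) → ℝ) (hF : ∀ s, F (ext (flip m s)) = F (ext s))
    (hc : ∀ s, c (ext (flip m s)) = c (ext s)) (hd : ∀ ω, |c ω| ≤ d) :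
    ∑ s : Fin n → Bool, Real.exp (t * (F (ext s) + sg (ext s) m * c (ext s))) ≤
      Real.exp (t ^ 2 * d ^ 2 / 2) * ∑ s : Fin n → Bool, Real.exp (t * F (ext s)) := by
  have h1 : ∑ s : Fin n → Bool, Real.exp (t * (F (ext s) + sg (ext s) m * c (ext s))) =
      ∑ s : Fin n → Bool, Real.exp (t * F (ext s)) * Real.cosh (t * (sg (ext s) m * c (ext s))) := by
    have h2 : ∑ s : Fin n → Bool, Real.exp (t * (F (ext s) + sg (ext s) m * c (ext s))) =
        ∑ s : Fin n → Bool, Real.exp (t * (F (ext s) - sg (ext s) m * c (ext s))) := by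
      rw [← sum_flip m]
      refine Finset.sum_congr rfl fun s _ => ?_
      rw [hF, hc, sg_flip]
      congr 1
      ring
    have h3 : ∑ s : Fin n → Bool, Real.exp (t * F (ext s)) * Real.cosh (t * (sg (ext s) m * c (ext s))) =
        (∑ s : Fin n → Bool, Real.exp (t * (F (ext s) + sg (ext s) m * c (ext s))) +
        ∑ s : Fin n → Bool, Real.exp (t * (F (ext s) - sg (ext s) m * c (ext s)))) / 2 := by
      rw [← Finset.sum_add_distrib, Finset.sum_div]
      refine Finset.sum_congr rfl fun s _ => ?_
      rw [Real.cosh_eq, mul_add, mul_sub, Real.exp_add, Real.exp_sub, Real.exp_neg]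
      ring
    rw [h3, ← h2]
    ring
  rw [h1, Finset.mul_sum]
  refine Finset.sum_le_sum fun s _ => ?_
  rw [mul_comm]
  refine mul_le_mul_of_nonneg_right ?_ (Real.exp_pos _).le
  refine (Real.cosh_le_exp_half_sq _).trans (Real.exp_le_exp.2 ?_)
  have h4 : (t * (sg (ext s) m * c (ext s))) ^ 2 = t ^ 2 * (c (ext s)) ^ 2 := by
    have h5 : (sg (ext s) m) ^ 2 = 1 := by
      rw [← sq_abs, abs_sg, one_pow]
    rw [mul_pow, mul_pow, h5, one_mul]
  rw [h4]
  have h6 : (c (ext s)) ^ 2 ≤ d ^ 2 := by
    rw [← sq_abs]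
    exact pow_le_pow_left₀ (abs_nonneg _) (hd _) 2
  have h7 := sq_nonneg t
  nlinarith

theorem count (n a : ℕ) (c : ℕ → (ℕ → Bool) → ℝ) (d : ℕ → ℝ) (t : ℝ) (hd : ∀ j ω, |c j ω| ≤ d j)
    (hp : ∀ (j : ℕ) (ω ω' : ℕ → Bool), (∀ i < j, ω i = ω' i) → c j ω = c j ω') (b : ℕ) (hb : b ≤ n) :
    ∑ s : Fin n → Bool, Real.exp (t * ∑ j ∈ Finset.Ico a b, sg (ext s) j * c j (ext s)) ≤
      2 ^ n * Real.exp (t ^ 2 * (∑ j ∈ Finset.Ico a b, d j ^ 2) / 2) := by
  induction b with
  | zero => simp
  | succ b ih =>
    rcases Nat.lt_or_ge b a with h | h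
    · rw [Finset.Ico_eq_empty (by omega)]
      simp
    · rw [Finset.sum_Ico_succ_top h]
      have h1 := step (⟨b, hb⟩ : Fin n) t (d b) (fun ω => ∑ j ∈ Finset.Ico a b, sg ω j * c j ω) (c b)
        (by
          intro s
          refine Finset.sum_congr rfl fun j hj => ?_
          have hjb : j < b := (Finset.mem_Ico.1 hj).2
          have h2 : sg (ext (flip (⟨b, hb⟩ : Fin n) s)) j = sg (ext s) j := by
            unfold sg
            rw [ext_flip_ne _ _ (by simp; omega)]
          rw [h2, hp j _ (ext s) fun i hi => ext_flip_ne _ _ (by simp; omega)])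
        (by
          intro s
          exact hp b _ (ext s) fun i hi => ext_flip_ne _ _ (by simp; omega))
        (hd b)
      have h2 : ∀ s : Fin n → Bool, ∑ j ∈ Finset.Ico a (b + 1), sg (ext s) j * c j (ext s) =
          (∑ j ∈ Finset.Ico a b, sg (ext s) j * c j (ext s)) + sg (ext s) b * c b (ext s) := fun s =>
        Finset.sum_Ico_succ_top h _
      simp only [h2]
      refine h1.trans ?_
      calc Real.exp (t ^ 2 * d b ^ 2 / 2) *
            ∑ s : Fin n → Bool, Real.exp (t * ∑ j ∈ Finset.Ico a b, sg (ext s) j * c j (ext s))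
          ≤ Real.exp (t ^ 2 * d b ^ 2 / 2) * (2 ^ n * Real.exp (t ^ 2 * (∑ j ∈ Finset.Ico a b, d j ^ 2) / 2)) :=
            mul_le_mul_of_nonneg_left (ih (by omega)) (Real.exp_pos _).le
        _ = 2 ^ n * Real.exp (t ^ 2 * (∑ j ∈ Finset.Ico a b, d j ^ 2 + d b ^ 2) / 2) := by
            rw [mul_left_comm, ← Real.exp_add]
            congr 2
            ring

theorem az : S_AZ := by
  classical
  intro n a b c d L hb hL hd hp
  set V : ℝ := ∑ j ∈ Finset.Ico a b, d j ^ 2 with hV
  have hV0 : 0 ≤ V := Finset.sum_nonneg fun j _ => sq_nonneg _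
  have hdep : ∀ ω : ℕ → Bool, ∑ j ∈ Finset.Ico a b, sg (ext fun k : Fin n => ω k) j * c j (ext fun k : Fin n => ω k) =
      ∑ j ∈ Finset.Ico a b, sg ω j * c j ω := by
    intro ω
    have h1 : ∀ i < n, ext (fun k : Fin n => ω k) i = ω i := by
      intro i hi
      unfold ext
      simp [hi]
    refine Finset.sum_congr rfl fun j hj => ?_
    have hjn : j < n := (Finset.mem_Ico.1 hj).2.trans_le hb
    have h2 : sg (ext fun k : Fin n => ω k) j = sg ω j := by
      unfold sg
      rw [h1 j hjn]
    rw [h2, hp j _ ω fun i hi => h1 i (hi.trans hjn)]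
  rcases hV0.eq_or_lt with hV' | hV'
  · refine ⟨∅, ?_, ?_⟩
    · simp
      positivity
    · intro ω hω
      exfalso
      rw [Set.mem_ofPred_eq] at hω
      rw [← hV', mul_zero, Real.sqrt_zero] at hω
      have h1 : ∀ j ∈ Finset.Ico a b, d j ^ 2 = 0 :=
        (Finset.sum_eq_zero_iff_of_nonneg fun j _ => sq_nonneg _).1 hV'.symm
      have h2 : ∑ j ∈ Finset.Ico a b, sg ω j * c j ω = 0 := by
        refine Finset.sum_eq_zero fun j hj => ?_
        have h3 : d j = 0 := by
          have := h1 j hj
          exact pow_eq_zero_iff (two_ne_zero) |>.1 this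
        have h4 := hd j ω
        rw [h3] at h4
        rw [abs_nonpos_iff.1 h4, mul_zero]
      rw [h2, abs_zero] at hω
      exact lt_irrefl _ hω
  · set t : ℝ := √(2 * L / V) with ht
    have ht2 : t ^ 2 = 2 * L / V := Real.sq_sqrt (by positivity)
    have htV : t * √(2 * L * V) = 2 * L := by
      rw [ht, ← Real.sqrt_mul (by positivity)]
      have : 2 * L / V * (2 * L * V) = (2 * L) ^ 2 := by
        field_simp
      rw [this, Real.sqrt_sq (by positivity)]
    have ht0 : 0 ≤ t := Real.sqrt_nonneg _
    let Y : (Fin n → Bool) → ℝ := fun s => ∑ j ∈ Finset.Ico a b, sg (ext s) j * c j (ext s)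
    refine ⟨Finset.univ.filter fun s => √(2 * L * V) < |Y s|, ?_, ?_⟩
    · have h1 : ∑ s : Fin n → Bool, Real.exp (t * Y s) ≤ 2 ^ n * Real.exp L := by
        have := count n a c d t hd hp b hb
        rw [← hV, ht2] at this
        have e : 2 * L / V * V / 2 = L := by field_simp
        rwa [e] at this
      have h2 : ∑ s : Fin n → Bool, Real.exp (-(t * Y s)) ≤ 2 ^ n * Real.exp L := by
        have := count n a c d (-t) hd hp b hb
        rw [← hV, neg_sq, ht2] at this
        have e : 2 * L / V * V / 2 = L := by field_simp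
        rw [e] at this
        have e2 : ∀ s : Fin n → Bool, -t * ∑ j ∈ Finset.Ico a b, sg (ext s) j * c j (ext s) = -(t * Y s) := by
          intro s
          rw [neg_mul]
        simp only [e2] at this
        exact this
      have h3 : ((Finset.univ.filter fun s => √(2 * L * V) < |Y s|).card : ℝ) * Real.exp (2 * L) ≤
          ∑ s : Fin n → Bool, (Real.exp (t * Y s) + Real.exp (-(t * Y s))) := by
        rw [← nsmul_eq_mul, ← Finset.sum_const]
        refine (Finset.sum_le_sum (fun s hs => ?_)).trans
          (Finset.sum_le_sum_of_subset_of_nonneg (Finset.filter_subset _ _) (fun s _ _ => by positivity))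
        rw [Finset.mem_filter] at hs
        have h4 : 2 * L ≤ t * |Y s| := by
          rw [← htV]
          exact mul_le_mul_of_nonneg_left hs.2.le ht0
        have h5 : Real.exp (2 * L) ≤ Real.exp (t * |Y s|) := Real.exp_le_exp.2 h4
        rcases abs_choice (Y s) with h6 | h6
        · rw [h6] at h5
          have := Real.exp_pos (-(t * Y s))
          linarith
        · rw [h6, mul_neg] at h5
          have := Real.exp_pos (t * Y s)
          linarith
      rw [Finset.sum_add_distrib] at h3
      have h4 : ((Finset.univ.filter fun s => √(2 * L * V) < |Y s|).card : ℝ) * Real.exp (2 * L) ≤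
          2 * 2 ^ n * Real.exp L := by linarith
      have h5 : Real.exp (-L) * Real.exp (2 * L) = Real.exp L := by
        rw [← Real.exp_add]
        congr 1
        ring
      rw [← h5, ← mul_assoc] at h4
      exact le_of_mul_le_mul_right h4 (Real.exp_pos _)
    · intro ω hω
      unfold cyl
      rw [Set.mem_ofPred_eq] at hω ⊢
      rw [Finset.mem_filter]
      refine ⟨Finset.mem_univ _, ?_⟩
      change √(2 * L * V) < |∑ j ∈ Finset.Ico a b, sg (ext fun k : Fin n => ω k) j * c j (ext fun k : Fin n => ω k)|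
      rw [hdep]
      exact hω

end Pool.Agent.Q190.EP
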