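import Pool.Agent.Q255.EP.Stm
import Pool.Agent.Q255.IC.Basic

/-! # Project EP (helper255): the deterministic part -/

set_option autoImplicit false

namespace Pool.Agent.Q190.EP

open Filter Topology MeasureTheory Pool.Agent.Q255.IC Pool.Agent.Q255.IR Pool.Agent.Q255.EP
open scoped ENNReal

theorem nq_nonneg {κ : ℕ → ℝ} (hκ : ∀ k, 0 ≤ κ k) (k X : ℕ) (w : ℕ → ℝ) : 0 ≤ Nq κ k X w :=
  Finset.sum_nonneg fun _ _ => mul_nonneg (sq_nonneg _) (Finset.prod_nonneg fun _ _ => hκ _)

/-- splitting an initial interval into blocks -/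
theorem sum_blocks (N : ℕ → ℕ) (h0 : N 0 = 0) (hN : Monotone N) (k : ℕ) (g : ℕ → ℝ) (J : ℕ) :
    ∑ j ∈ Finset.range (min (N J) k), g j =
      ∑ i ∈ Finset.range J, ∑ j ∈ Finset.Ico (min (N i) k) (min (N (i + 1)) k), g j := by
  induction J with
  | zero => simp [h0]
  | succ J ih =>
    rw [Finset.sum_range_succ, ← ih, Finset.range_eq_Ico, Finset.range_eq_Ico]
    rw [Finset.sum_Ico_consecutive g (Nat.zero_le _) (min_le_min_right k (hN (Nat.le_succ J)))]

theorem trunc_eq {d c : ℝ} (h : |c| ≤ d) : trunc d c = c := by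
  unfold trunc
  rw [if_pos h]

theorem det (hREC : S_REC) : S_DET := by
  intro ω X κ κ' N L J T hX hN0 hN hκ' hL hκκ hκ hsum hT hTX hG w hw k
  induction k using Nat.strong_induction_on generalizing w with
  | _ k ih =>
    intro hk
    obtain ⟨hS0, hN0', hS, hNq, _⟩ := hREC ω κ X w hX (hTX w hw)
    have hdil : ∀ j, dil j w ∈ T := fun j => hT w hw (pr j) (pr_prime j).one_lt.le
    -- telescoping
    have hSk : ∀ m, Sq ω m X w = w 1 + ∑ j ∈ Finset.range m, sg ω j * Sq ω j X (dil j w) := by
      intro m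
      induction m with
      | zero => simpa using hS0
      | succ m ihm => rw [hS m, ihm, Finset.sum_range_succ, add_assoc]
    have hNk : ∀ m, Nq κ m X w = w 1 ^ 2 + ∑ j ∈ Finset.range m, κ j * Nq κ j X (dil j w) := by
      intro m
      induction m with
      | zero => simpa using hN0'
      | succ m ihm => rw [hNq m, ihm, Finset.sum_range_succ, add_assoc]
    have hnn : ∀ j, 0 ≤ Nq κ j X (dil j w) := fun j => nq_nonneg hκ j X _
    have htr : ∀ j, j < k → trunc (√(2 * Nq κ j X (dil j w))) (Sq ω j X (dil j w)) = Sq ω j X (dil j w) := by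
      intro j hj
      apply trunc_eq
      have h1 := ih j hj (dil j w) (hdil j) (hj.le.trans hk)
      rw [← Real.sqrt_sq_eq_abs]
      exact Real.sqrt_le_sqrt h1
    -- the blocks
    let γ : ℕ → ℝ := fun i => ∑ j ∈ Finset.Ico (min (N i) k) (min (N (i + 1)) k), κ j * Nq κ j X (dil j w)
    have hγ : ∀ i, 0 ≤ γ i := fun i => Finset.sum_nonneg fun j _ => mul_nonneg (hκ j) (hnn j)
    have hblock : ∀ i ∈ Finset.range J,
        |∑ j ∈ Finset.Ico (min (N i) k) (min (N (i + 1)) k), sg ω j * Sq ω j X (dil j w)| ≤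
          √(4 * L i / κ' i) * √(γ i) := by
      intro i hi
      have hiJ := Finset.mem_range.1 hi
      rcases Nat.lt_or_ge k (N i) with hki | hki
      · rw [min_eq_right hki.le, Finset.Ico_eq_empty (by
          have : min (N (i + 1)) k ≤ k := min_le_right _ _
          omega)]
        simp only [Finset.sum_empty, abs_zero]
        positivity
      · have hm := hN (Nat.le_succ i)
        have h1 := hG w hw i hiJ (min (N (i + 1)) k) (le_min hm hki) (min_le_left _ _)
        rw [min_eq_left hki]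
        have h2 : ∑ j ∈ Finset.Ico (N i) (min (N (i + 1)) k), sg ω j * Sq ω j X (dil j w) =
            ∑ j ∈ Finset.Ico (N i) (min (N (i + 1)) k),
              sg ω j * trunc (√(2 * Nq κ j X (dil j w))) (Sq ω j X (dil j w)) := by
          refine Finset.sum_congr rfl fun j hj => ?_
          rw [htr j ((Finset.mem_Ico.1 hj).2.trans_le (min_le_right _ _))]
        rw [h2]
        refine h1.trans ?_
        rw [← Real.sqrt_mul (by
          have := hL i
          have := hκ' i
          positivity)]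
        refine Real.sqrt_le_sqrt (le_of_eq ?_)
        have h3 : ∑ j ∈ Finset.Ico (N i) (min (N (i + 1)) k), √(2 * Nq κ j X (dil j w)) ^ 2 =
            ∑ j ∈ Finset.Ico (N i) (min (N (i + 1)) k), 2 * Nq κ j X (dil j w) := by
          refine Finset.sum_congr rfl fun j _ => ?_
          rw [Real.sq_sqrt (mul_nonneg (by norm_num) (hnn j))]
        have h4 : γ i = κ' i * ∑ j ∈ Finset.Ico (N i) (min (N (i + 1)) k), Nq κ j X (dil j w) := by
          change ∑ j ∈ Finset.Ico (min (N i) k) (min (N (i + 1)) k), κ j * Nq κ j X (dil j w) = _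
          rw [min_eq_left hki, Finset.mul_sum]
          refine Finset.sum_congr rfl fun j hj => ?_
          rw [hκκ i j (Finset.mem_Ico.1 hj).1 ((Finset.mem_Ico.1 hj).2.trans_le (min_le_left _ _))]
        rw [h3, h4, ← Finset.mul_sum]
        have h5 := (hκ' i).ne'
        field_simp
        ring
    have hkJ : min (N J) k = k := min_eq_right hk
    have hsumS : |∑ j ∈ Finset.range k, sg ω j * Sq ω j X (dil j w)| ≤
        ∑ i ∈ Finset.range J, √(4 * L i / κ' i) * √(γ i) := by
      have h1 := sum_blocks N hN0 hN k (fun j => sg ω j * Sq ω j X (dil j w)) J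
      rw [hkJ] at h1
      rw [h1]
      exact (Finset.abs_sum_le_sum_abs _ _).trans (Finset.sum_le_sum hblock)
    have hγsum : ∑ i ∈ Finset.range J, γ i = ∑ j ∈ Finset.range k, κ j * Nq κ j X (dil j w) := by
      have h1 := sum_blocks N hN0 hN k (fun j => κ j * Nq κ j X (dil j w)) J
      rw [hkJ] at h1
      exact h1.symm
    have hCS : (∑ i ∈ Finset.range J, √(4 * L i / κ' i) * √(γ i)) ^ 2 ≤ ∑ i ∈ Finset.range J, γ i := by
      refine (Finset.sum_mul_sq_le_sq_mul_sq _ _ _).trans ?_
      have h1 : ∑ i ∈ Finset.range J, √(4 * L i / κ' i) ^ 2 = ∑ i ∈ Finset.range J, 4 * L i / κ' i := by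
        refine Finset.sum_congr rfl fun i _ => Real.sq_sqrt ?_
        have := hL i
        have := hκ' i
        positivity
      have h2 : ∑ i ∈ Finset.range J, √(γ i) ^ 2 = ∑ i ∈ Finset.range J, γ i :=
        Finset.sum_congr rfl fun i _ => Real.sq_sqrt (hγ i)
      rw [h1, h2]
      have h3 : 0 ≤ ∑ i ∈ Finset.range J, γ i := Finset.sum_nonneg fun i _ => hγ i
      nlinarith
    rw [hSk k, hNk k, ← hγsum]
    have h6 : (∑ j ∈ Finset.range k, sg ω j * Sq ω j X (dil j w)) ^ 2 ≤ ∑ i ∈ Finset.range J, γ i := by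
      rw [← sq_abs]
      exact (pow_le_pow_left₀ (abs_nonneg _) hsumS 2).trans hCS
    nlinarith [sq_nonneg (w 1 - ∑ j ∈ Finset.range k, sg ω j * Sq ω j X (dil j w))]

end Pool.Agent.Q190.EP
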