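import Pool.Agent.Q255.EP.Stm
import Pool.Agent.Q255.IC.Basic

/-! # Project EP (helper255): Rankin bound for a sum over squarefree numbers -/

set_option autoImplicit false

namespace Pool.Agent.Q190.EP

open Filter Topology MeasureTheory Pool.Agent.Q255.IC Pool.Agent.Q255.IR Pool.Agent.Q255.EP
open scoped ENNReal

theorem one_add_le_exp {x η : ℝ} (hx : 0 ≤ x) (h0 : 0 < η) (h1 : η ≤ 1) : 1 + x ≤ Real.exp (x ^ η / η) := by
  have h2 : (1 + x) ^ η ≤ Real.exp (x ^ η) := by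
    have h3 : (1 + x) ^ η ≤ 1 + x ^ η := by
      have h4 := NNReal.rpow_add_le_add_rpow (p := η) 1 x.toNNReal h0.le h1
      have h5 := NNReal.coe_le_coe.2 h4
      rw [NNReal.coe_rpow, NNReal.coe_add, NNReal.coe_add, NNReal.coe_rpow, NNReal.coe_rpow, NNReal.coe_one,
        Real.one_rpow, Real.coe_toNNReal x hx] at h5
      exact h5
    have h4 := Real.add_one_le_exp (x ^ η)
    linarith
  have h3 : 1 + x = ((1 + x) ^ η) ^ (1 / η) := by
    rw [← Real.rpow_mul (by linarith), mul_one_div_cancel h0.ne', Real.rpow_one]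
  rw [h3]
  calc ((1 + x) ^ η) ^ (1 / η) ≤ (Real.exp (x ^ η)) ^ (1 / η) :=
        Real.rpow_le_rpow (Real.rpow_nonneg (by linarith) _) h2 (by positivity)
    _ = Real.exp (x ^ η / η) := by
        rw [← Real.exp_mul, mul_one_div]

theorem growth (K c θ : ℝ) (hK : 0 ≤ K) (hc : 0 < c) (h0 : 0 ≤ θ) (h1 : θ < 1) :
    ∃ C1 : ℝ, ∀ J : ℕ, K * ((J : ℝ) + 1) ^ θ ≤ C1 + c * J := by
  have h2 : 0 < 1 - θ := by linarith
  set x0 : ℝ := (K / c) ^ (1 / (1 - θ)) with hx0
  have hx0' : 0 ≤ x0 := by positivity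
  refine ⟨c + K * x0 ^ θ, fun J => ?_⟩
  have hJ : (0 : ℝ) < (J : ℝ) + 1 := by positivity
  rcases le_or_gt x0 ((J : ℝ) + 1) with h | h
  · have h3 : K / c ≤ ((J : ℝ) + 1) ^ (1 - θ) := by
      have h4 := Real.rpow_le_rpow hx0' h h2.le
      rw [hx0, ← Real.rpow_mul (by positivity), one_div_mul_cancel h2.ne', Real.rpow_one] at h4
      exact h4
    have h4 : K ≤ c * ((J : ℝ) + 1) ^ (1 - θ) := by
      rw [div_le_iff₀ hc] at h3
      linarith
    calc K * ((J : ℝ) + 1) ^ θ ≤ c * ((J : ℝ) + 1) ^ (1 - θ) * ((J : ℝ) + 1) ^ θ := by gcongr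
      _ = c * ((J : ℝ) + 1) := by
          rw [mul_assoc, ← Real.rpow_add hJ, sub_add_cancel, Real.rpow_one]
      _ ≤ c + K * x0 ^ θ + c * J := by
          have : 0 ≤ K * x0 ^ θ := by positivity
          linarith
  · calc K * ((J : ℝ) + 1) ^ θ ≤ K * x0 ^ θ := by gcongr
      _ ≤ c + K * x0 ^ θ + c * J := by
          have : 0 ≤ c * (J : ℝ) := by positivity
          linarith

theorem pr_count {p : ℕ} (hp : p.Prime) : pr (Nat.count Nat.Prime p) = p := Nat.nth_count hp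

/-- the sum over the squarefree numbers is at most a product -/
theorem sum_sm_le (g : ℕ → ℝ) (hg : ∀ p, 0 ≤ g p) (k M : ℕ) :
    ∑ m ∈ sm k M, ∏ p ∈ m.primeFactors, g p ≤ ∏ p ∈ (Finset.range (pr k)).filter Nat.Prime, (1 + g p) := by
  classical
  rw [Finset.prod_one_add]
  have h1 : ∑ m ∈ sm k M, ∏ p ∈ m.primeFactors, g p = ∑ s ∈ (sm k M).image Nat.primeFactors, ∏ p ∈ s, g p := by
    rw [Finset.sum_image]
    intro m hm m' hm' h
    have h2 := (Finset.mem_filter.1 hm).2.1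
    have h3 := (Finset.mem_filter.1 hm').2.1
    rw [← Nat.prod_primeFactors_of_squarefree h2, ← Nat.prod_primeFactors_of_squarefree h3]
    exact congrArg (fun s => ∏ p ∈ s, p) h
  rw [h1]
  refine Finset.sum_le_sum_of_subset_of_nonneg ?_ fun s _ _ => Finset.prod_nonneg fun p _ => hg p
  intro s hs
  obtain ⟨m, hm, rfl⟩ := Finset.mem_image.1 hs
  rw [Finset.mem_powerset]
  intro p hp
  rw [Finset.mem_filter, Finset.mem_range]
  exact ⟨(Finset.mem_filter.1 hm).2.2 p hp, Nat.prime_of_mem_primeFactors hp⟩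

theorem prd : S_PRD := by
  classical
  intro δ ε C' hδ hε hε1 hC'
  set η : ℝ := 1 / (1 + 3 * ε / 2) with hη
  have hd : 0 < 1 + 3 * ε / 2 := by positivity
  have hη0 : 0 < η := by positivity
  have hη1 : η ≤ 1 := by
    rw [hη, div_le_one hd]
    linarith
  have hs1 : 1 < (1 + 2 * ε) * η := by
    rw [hη, mul_one_div, one_lt_div hd]
    linarith
  have hθ1 : (1 + ε) * η < 1 := by
    rw [hη, mul_one_div, div_lt_one hd]
    linarith
  have hθ0 : 0 ≤ (1 + ε) * η := by positivity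
  set Z : ℝ := ∑' n : ℕ, ((n : ℝ) ^ (-((1 + 2 * ε) * η))) with hZ
  have hsum : Summable fun n : ℕ => ((n : ℝ) ^ (-((1 + 2 * ε) * η))) := by
    rw [Real.summable_nat_rpow]
    linarith
  have hZ0 : 0 ≤ Z := tsum_nonneg fun n => by positivity
  have hlog2 : 0 < Real.log 2 := Real.log_pos (by norm_num)
  obtain ⟨C1, hC1⟩ := growth (1 / η * Z * C' ^ η) (ε * Real.log 2) ((1 + ε) * η) (by positivity)
    (by positivity) hθ0 hθ1
  refine ⟨Real.exp C1, (Real.exp_pos _).le, ?_⟩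
  intro J κ hκ k M hM
  set σ : ℝ := 1 + δ + 4 * ε with hσ
  have hσ0 : 0 < σ := by rw [hσ]; positivity
  set B : ℝ := C' * ((J : ℝ) + 1) ^ (1 + ε) with hB
  have hB0 : 0 ≤ B := by positivity
  let g : ℕ → ℝ := fun p => κ (Nat.count Nat.Prime p) * (p : ℝ) ^ (-σ)
  have hg0 : ∀ p, 0 ≤ g p := fun p => mul_nonneg (hκ _).1 (by positivity)
  have hgB : ∀ p : ℕ, p.Prime → g p ≤ B * (p : ℝ) ^ (-(1 + 2 * ε)) := by
    intro p hp
    have hp0 : (0 : ℝ) < p := by exact_mod_cast hp.pos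
    have h1 := (hκ (Nat.count Nat.Prime p)).2
    rw [pr_count hp] at h1
    calc g p ≤ (B * (p : ℝ) ^ (δ + 2 * ε)) * (p : ℝ) ^ (-σ) :=
          mul_le_mul_of_nonneg_right h1 (by positivity)
      _ = B * (p : ℝ) ^ (-(1 + 2 * ε)) := by
          rw [mul_assoc, ← Real.rpow_add hp0]
          congr 2
          rw [hσ]
          ring
  -- Rankin
  have hR : ∑ m ∈ sm k M, ∏ p ∈ m.primeFactors, κ (Nat.count Nat.Prime p) ≤
      (M : ℝ) ^ σ * ∑ m ∈ sm k M, ∏ p ∈ m.primeFactors, g p := by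
    rw [Finset.mul_sum]
    refine Finset.sum_le_sum fun m hm => ?_
    have hm' := Finset.mem_filter.1 hm
    have hm1 := Finset.mem_Icc.1 hm'.1
    have hm0 : (0 : ℝ) < m := by exact_mod_cast hm1.1
    have h1 : ∏ p ∈ m.primeFactors, g p = (∏ p ∈ m.primeFactors, κ (Nat.count Nat.Prime p)) * (m : ℝ) ^ (-σ) := by
      rw [Finset.prod_mul_distrib]
      congr 1
      rw [Real.finsetProd_rpow _ _ (fun p _ => by positivity)]
      congr 1
      have h2 := Nat.prod_primeFactors_of_squarefree hm'.2.1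
      calc ∏ p ∈ m.primeFactors, (p : ℝ) = ((∏ p ∈ m.primeFactors, p : ℕ) : ℝ) := by push_cast; rfl
        _ = m := by rw [h2]
    have h2 : 0 ≤ ∏ p ∈ m.primeFactors, κ (Nat.count Nat.Prime p) := Finset.prod_nonneg fun p _ => (hκ _).1
    have h3 : 1 ≤ (M : ℝ) ^ σ * (m : ℝ) ^ (-σ) := by
      rw [Real.rpow_neg hm0.le, ← div_eq_mul_inv, one_le_div (by positivity)]
      exact Real.rpow_le_rpow hm0.le (by exact_mod_cast hm1.2) hσ0.le
    rw [h1]
    calc ∏ p ∈ m.primeFactors, κ (Nat.count Nat.Prime p)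
        = 1 * ∏ p ∈ m.primeFactors, κ (Nat.count Nat.Prime p) := (one_mul _).symm
      _ ≤ ((M : ℝ) ^ σ * (m : ℝ) ^ (-σ)) * ∏ p ∈ m.primeFactors, κ (Nat.count Nat.Prime p) :=
          mul_le_mul_of_nonneg_right h3 h2
      _ = _ := by ring
  have hP : ∏ p ∈ (Finset.range (pr k)).filter Nat.Prime, (1 + g p) ≤
      Real.exp (1 / η * Z * C' ^ η * ((J : ℝ) + 1) ^ ((1 + ε) * η)) := by
    have h1 : ∏ p ∈ (Finset.range (pr k)).filter Nat.Prime, (1 + g p) ≤
        ∏ p ∈ (Finset.range (pr k)).filter Nat.Prime,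
          Real.exp (1 / η * B ^ η * (p : ℝ) ^ (-((1 + 2 * ε) * η))) := by
      refine Finset.prod_le_prod (fun p _ => by have := hg0 p; linarith) fun p hp => ?_
      have hpp := (Finset.mem_filter.1 hp).2
      have hp0 : (0 : ℝ) < p := by exact_mod_cast hpp.pos
      refine (one_add_le_exp (hg0 p) hη0 hη1).trans (Real.exp_le_exp.2 ?_)
      have h2 : (g p) ^ η ≤ B ^ η * (p : ℝ) ^ (-((1 + 2 * ε) * η)) := by
        refine (Real.rpow_le_rpow (hg0 p) (hgB p hpp) hη0.le).trans (le_of_eq ?_)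
        rw [Real.mul_rpow hB0 (by positivity), ← Real.rpow_mul hp0.le]
        congr 2
        ring
      rw [div_eq_mul_one_div, mul_comm, mul_assoc]
      exact mul_le_mul_of_nonneg_left h2 (by positivity)
    refine h1.trans ?_
    rw [← Real.exp_sum]
    refine Real.exp_le_exp.2 ?_
    rw [← Finset.mul_sum]
    have h3 : ∑ p ∈ (Finset.range (pr k)).filter Nat.Prime, (p : ℝ) ^ (-((1 + 2 * ε) * η)) ≤ Z :=
      hsum.sum_le_tsum _ fun n _ => by positivity
    have h4 : B ^ η = C' ^ η * ((J : ℝ) + 1) ^ ((1 + ε) * η) := by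
      rw [hB, Real.mul_rpow hC' (by positivity), ← Real.rpow_mul (by positivity)]
    calc 1 / η * B ^ η * ∑ p ∈ (Finset.range (pr k)).filter Nat.Prime, (p : ℝ) ^ (-((1 + 2 * ε) * η))
        ≤ 1 / η * B ^ η * Z := mul_le_mul_of_nonneg_left h3 (by positivity)
      _ = 1 / η * Z * C' ^ η * ((J : ℝ) + 1) ^ ((1 + ε) * η) := by
          rw [h4]
          ring
  have h2J : Real.exp (ε * Real.log 2 * J) = (2 : ℝ) ^ (ε * J) := by
    rw [Real.rpow_def_of_pos (by norm_num)]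
    congr 1
    ring
  calc ∑ m ∈ sm k M, ∏ p ∈ m.primeFactors, κ (Nat.count Nat.Prime p)
      ≤ (M : ℝ) ^ σ * ∑ m ∈ sm k M, ∏ p ∈ m.primeFactors, g p := hR
    _ ≤ (M : ℝ) ^ σ * Real.exp (C1 + ε * Real.log 2 * J) := by
        refine mul_le_mul_of_nonneg_left ?_ (by positivity)
        exact (sum_sm_le g hg0 k M).trans (hP.trans (Real.exp_le_exp.2 (hC1 J)))
    _ = Real.exp C1 * (2 : ℝ) ^ (ε * J) * (M : ℝ) ^ σ := by
        rw [Real.exp_add, h2J]
        ring

end Pool.Agent.Q190.EP
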