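import Pool.Agent.Q190.EP.Eng3
import Pool.Agent.Q190.EP.AZ
import Pool.Agent.Q190.EP.DET
import Pool.Agent.Q190.EP.PRD

/-! # Project EP (helper255): `S_ENG` -/

set_option autoImplicit false

namespace Pool.Agent.Q190.EP

open Pool.Agent.Q255.EP

theorem t_ENG : S_ENG := eng Pool.Agent.Q13.EP.t_REC Pool.Agent.Q13.EP.t_FULL az (det Pool.Agent.Q13.EP.t_REC) prd

end Pool.Agent.Q190.EP
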