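import Pool.Agent.Q13.EP.REC
import Pool.Agent.Q190.IR.Dpi
import Pool.Agent.Q255.EP.Stm
import Pool.Agent.Q255.IC.Basic

/-! # Project EP (helper255), job ENG: the blocks, the bad words and their probability -/

set_option autoImplicit false

namespace Pool.Agent.Q190.EP

open Filter Topology MeasureTheory Pool.Agent.Q255.IC Pool.Agent.Q255.IR Pool.Agent.Q255.EP
open scoped ENNReal

/-! ## The blocks -/

/-- the number of the primes up to `2^i` -/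
noncomputable def NN (i : ℕ) : ℕ := Nat.primeCounting (2 ^ i)

/-- the block of `k` -/
noncomputable def blk (k : ℕ) : ℕ := Nat.clog 2 (pr k) - 1

theorem NN_zero : NN 0 = 0 := by
  unfold NN
  rw [pow_zero]
  exact Nat.primeCounting_one

theorem NN_mono : Monotone NN := fun _ _ h =>
  Nat.monotone_primeCounting (Nat.pow_le_pow_right (by norm_num) h)

theorem NN_le (i : ℕ) : NN i ≤ 2 ^ i := by
  unfold NN Nat.primeCounting Nat.primeCounting'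
  rw [Nat.count_eq_card_filter_range]
  have h1 : (Finset.range (2 ^ i + 1)).filter Nat.Prime ⊆ Finset.Icc 1 (2 ^ i) := by
    intro p hp
    rw [Finset.mem_filter, Finset.mem_range] at hp
    exact Finset.mem_Icc.2 ⟨hp.2.pos, by omega⟩
  have h2 := Finset.card_le_card h1
  simpa using h2

theorem blk_spec (k : ℕ) : 2 ^ blk k < pr k ∧ pr k ≤ 2 ^ (blk k + 1) := by
  have h2 : 2 ≤ pr k := (pr_prime k).two_le
  have hpos : 0 < Nat.clog 2 (pr k) := Nat.clog_pos (by norm_num) (by omega)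
  unfold blk
  constructor
  · rw [← Nat.lt_clog_iff_pow_lt (by norm_num)]
    omega
  · rw [← Nat.clog_le_iff_le_pow (by norm_num)]
    omega

theorem blk_eq {i k : ℕ} (h1 : NN i ≤ k) (h2 : k < NN (i + 1)) : blk k = i := by
  have h3 : 2 ^ i + 1 ≤ pr k := by
    unfold NN Nat.primeCounting Nat.primeCounting' at h1
    exact (Nat.count_le_iff_le_nth Nat.infinite_setOfPred_prime).1 h1
  have h4 : pr k < 2 ^ (i + 1) + 1 := by
    unfold NN Nat.primeCounting Nat.primeCounting' at h2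
    exact (Nat.lt_nth_iff_count_lt Nat.infinite_setOfPred_prime).1 h2
  obtain ⟨h5, h6⟩ := blk_spec k
  have h7 : blk k < i + 1 := (Nat.pow_lt_pow_iff_right (by norm_num : 1 < 2)).1 (by omega)
  have h8 : i < blk k + 1 := (Nat.pow_lt_pow_iff_right (by norm_num : 1 < 2)).1 (by omega)
  omega

/-! ## The weights -/

/-- `L i` -/
noncomputable def LL (δ ε : ℝ) (J i : ℕ) : ℝ := 2 * (2 : ℝ) ^ (((i : ℝ) + 1) * (δ + ε)) * ((J : ℝ) + 1) ^ (1 + ε)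

/-- `κ' i` -/
noncomputable def KK (δ ε : ℝ) (J i : ℕ) : ℝ := 4 / ((2 : ℝ) ^ ε - 1) * (2 : ℝ) ^ (((i : ℝ) + 1) * ε) * LL δ ε J i

theorem LL_pos (δ ε : ℝ) (J i : ℕ) : 0 < LL δ ε J i := by
  unfold LL
  positivity

theorem two_rpow_sub {ε : ℝ} (hε : 0 < ε) : 0 < (2 : ℝ) ^ ε - 1 := by
  have := Real.one_lt_rpow (x := 2) (by norm_num) hε
  linarith

theorem KK_pos {ε : ℝ} (hε : 0 < ε) (δ : ℝ) (J i : ℕ) : 0 < KK δ ε J i := by
  unfold KK
  have h1 := two_rpow_sub hε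
  have h2 := LL_pos δ ε J i
  positivity

theorem sum_LK {ε : ℝ} (hε : 0 < ε) (δ : ℝ) (J : ℕ) : ∑ i ∈ Finset.range J, 4 * LL δ ε J i / KK δ ε J i ≤ 1 := by
  have h1 := two_rpow_sub hε
  have h2 : ∀ i ∈ Finset.range J, 4 * LL δ ε J i / KK δ ε J i =
      (2 : ℝ) ^ (-((i : ℝ) * ε)) - (2 : ℝ) ^ (-(((i + 1 : ℕ) : ℝ) * ε)) := by
    intro i _
    have h3 := (LL_pos δ ε J i).ne'
    have h4 : (0 : ℝ) < (2 : ℝ) ^ (((i : ℝ) + 1) * ε) := by positivity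
    have h5 : (2 : ℝ) ^ (-((i : ℝ) * ε)) = (2 : ℝ) ^ ε * (2 : ℝ) ^ (-(((i : ℝ) + 1) * ε)) := by
      rw [← Real.rpow_add (by norm_num)]
      congr 1
      ring
    unfold KK
    rw [h5]
    push_cast
    rw [Real.rpow_neg (by norm_num) (((i : ℝ) + 1) * ε)]
    field_simp
  rw [Finset.sum_congr rfl h2, Finset.sum_range_sub' (fun i : ℕ => (2 : ℝ) ^ (-((i : ℝ) * ε)))]
  have h3 : (0 : ℝ) < (2 : ℝ) ^ (-((J : ℝ) * ε)) := by positivity
  simp only [Nat.cast_zero, zero_mul, neg_zero, Real.rpow_zero]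
  linarith

theorem KK_le {δ ε : ℝ} (hδ : 0 ≤ δ) (hε : 0 < ε) (J k : ℕ) : KK δ ε J (blk k) ≤
    (8 / ((2 : ℝ) ^ ε - 1) * (2 : ℝ) ^ (δ + 2 * ε)) * ((J : ℝ) + 1) ^ (1 + ε) * (pr k : ℝ) ^ (δ + 2 * ε) := by
  have h1 := two_rpow_sub hε
  have h2 : (2 : ℝ) ^ (((blk k : ℝ) + 1) * ε) * (2 : ℝ) ^ (((blk k : ℝ) + 1) * (δ + ε)) =
      ((2 : ℝ) ^ (blk k + 1)) ^ (δ + 2 * ε) := by
    rw [← Real.rpow_add (by norm_num), ← Real.rpow_natCast, ← Real.rpow_mul (by norm_num)]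
    congr 1
    push_cast
    ring
  have h3 : ((2 : ℝ) ^ (blk k + 1)) ≤ 2 * (pr k : ℝ) := by
    have h4 := (blk_spec k).1
    have h5 : 2 ^ (blk k + 1) ≤ 2 * pr k := by
      rw [pow_succ]
      omega
    exact_mod_cast h5
  have h4 : ((2 : ℝ) ^ (blk k + 1)) ^ (δ + 2 * ε) ≤ (2 : ℝ) ^ (δ + 2 * ε) * (pr k : ℝ) ^ (δ + 2 * ε) := by
    rw [← Real.mul_rpow (by norm_num) (pr_pos k).le]
    exact Real.rpow_le_rpow (by positivity) h3 (by positivity)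
  unfold KK LL
  calc 4 / ((2 : ℝ) ^ ε - 1) * (2 : ℝ) ^ (((blk k : ℝ) + 1) * ε) *
        (2 * (2 : ℝ) ^ (((blk k : ℝ) + 1) * (δ + ε)) * ((J : ℝ) + 1) ^ (1 + ε))
      = 8 / ((2 : ℝ) ^ ε - 1) * ((J : ℝ) + 1) ^ (1 + ε) *
        ((2 : ℝ) ^ (((blk k : ℝ) + 1) * ε) * (2 : ℝ) ^ (((blk k : ℝ) + 1) * (δ + ε))) := by ring
    _ = 8 / ((2 : ℝ) ^ ε - 1) * ((J : ℝ) + 1) ^ (1 + ε) * ((2 : ℝ) ^ (blk k + 1)) ^ (δ + 2 * ε) := by rw [h2]
    _ ≤ 8 / ((2 : ℝ) ^ ε - 1) * ((J : ℝ) + 1) ^ (1 + ε) *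
        ((2 : ℝ) ^ (δ + 2 * ε) * (pr k : ℝ) ^ (δ + 2 * ε)) :=
        mul_le_mul_of_nonneg_left h4 (by positivity)
    _ = _ := by ring

/-! ## The bad words -/

/-- the dilated functions -/
def TT (W : Finset (ℕ → ℝ)) : Set (ℕ → ℝ) := {g | ∃ w ∈ W, ∃ r : ℕ, 1 ≤ r ∧ g = fun m => w (r * m)}

open Classical in
/-- finitely many of them are all -/
noncomputable def TF (W : Finset (ℕ → ℝ)) (X : ℕ) : Finset (ℕ → ℝ) :=
  (W ×ˢ Finset.Icc 1 (X + 1)).image fun p m => p.1 (p.2 * m)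

theorem TT_sub {W : Finset (ℕ → ℝ)} {X : ℕ} (hX : ∀ w ∈ W, ∀ m, X < m → w m = 0) {g : ℕ → ℝ} (hg : g ∈ TT W) :
    g ∈ TF W X := by
  classical
  obtain ⟨w, hw, r, hr, rfl⟩ := hg
  unfold TF
  rw [Finset.mem_image]
  rcases Nat.lt_or_ge X r with h | h
  · refine ⟨(w, X + 1), Finset.mem_product.2 ⟨hw, Finset.mem_Icc.2 ⟨by omega, le_rfl⟩⟩, ?_⟩
    funext m
    rcases Nat.eq_zero_or_pos m with rfl | hm
    · simp
    · have e1 : w ((X + 1) * m) = 0 :=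
        hX w hw _ (lt_of_lt_of_le (Nat.lt_succ_self X) (Nat.le_mul_of_pos_right (X + 1) hm))
      have e2 : w (r * m) = 0 := hX w hw _ (lt_of_lt_of_le h (Nat.le_mul_of_pos_right r hm))
      exact e1.trans e2.symm
  · exact ⟨(w, r), Finset.mem_product.2 ⟨hw, Finset.mem_Icc.2 ⟨hr, by omega⟩⟩, rfl⟩

theorem TF_card (W : Finset (ℕ → ℝ)) (X : ℕ) : (TF W X).card ≤ W.card * (X + 1) := by
  classical
  refine Finset.card_image_le.trans ?_
  rw [Finset.card_product, Nat.card_Icc]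
  simp

theorem TT_dil {W : Finset (ℕ → ℝ)} {g : ℕ → ℝ} (hg : g ∈ TT W) {r : ℕ} (hr : 1 ≤ r) : (fun m => g (r * m)) ∈ TT W := by
  obtain ⟨w, hw, r', hr', rfl⟩ := hg
  refine ⟨w, hw, r' * r, Nat.mul_pos hr' hr, ?_⟩
  funext m
  rw [mul_assoc]

theorem TT_zero {W : Finset (ℕ → ℝ)} {X : ℕ} (hX : ∀ w ∈ W, ∀ m, X < m → w m = 0) {g : ℕ → ℝ} (hg : g ∈ TT W)
    {m : ℕ} (hm : X < m) : g m = 0 := by
  obtain ⟨w, hw, r, hr, rfl⟩ := hg
  exact hX w hw _ (lt_of_lt_of_le hm (Nat.le_mul_of_pos_left m hr))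

theorem TF_zero {W : Finset (ℕ → ℝ)} {X : ℕ} (hX : ∀ w ∈ W, ∀ m, X < m → w m = 0) {g : ℕ → ℝ} (hg : g ∈ TF W X)
    {m : ℕ} (hm : X < m) : g m = 0 := by
  classical
  unfold TF at hg
  obtain ⟨⟨w, r⟩, hp, rfl⟩ := Finset.mem_image.1 hg
  obtain ⟨hw, hr⟩ := Finset.mem_product.1 hp
  have hr' := (Finset.mem_Icc.1 hr).1
  exact hX w hw _ (lt_of_lt_of_le hm (Nat.le_mul_of_pos_left m hr'))

theorem abs_trunc {d c : ℝ} (hd : 0 ≤ d) : |trunc d c| ≤ d := by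
  unfold trunc
  split_ifs with h
  · exact h
  · rw [abs_zero]
    exact hd

theorem bad (hREC : S_REC) (hAZ : S_AZ) (J : ℕ) (W : Finset (ℕ → ℝ))
    (hW : ∀ w ∈ W, ∀ m, 2 ^ J < m → w m = 0) (κ : ℕ → ℝ) (L : ℕ → ℝ) (hL : ∀ i, 0 ≤ L i)
    (i : ℕ) (hi : i < J) : ∃ U : Finset (Fin (NN (i + 1)) → Bool),
      (U.card : ℝ) ≤ 2 * W.card * ((2 : ℝ) ^ J + 1) ^ 2 * 2 ^ (NN (i + 1)) * Real.exp (-L i) ∧
      ∀ ω : ℕ → Bool, ω ∉ cyl U → ∀ w ∈ TT W, ∀ k, NN i ≤ k → k ≤ NN (i + 1) →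
        |∑ j ∈ Finset.Ico (NN i) k, sg ω j *
            trunc (√(2 * Nq κ j (2 ^ J) (dil j w))) (Sq ω j (2 ^ J) (dil j w))| ≤
          √(2 * L i * ∑ j ∈ Finset.Ico (NN i) k, √(2 * Nq κ j (2 ^ J) (dil j w)) ^ 2) := by
  classical
  have h1 : ∀ p : (ℕ → ℝ) × ℕ, p ∈ TF W (2 ^ J) ×ˢ Finset.Icc (NN i) (NN (i + 1)) →
      ∃ U : Finset (Fin (NN (i + 1)) → Bool), (U.card : ℝ) ≤ 2 * 2 ^ (NN (i + 1)) * Real.exp (-L i) ∧
      ∀ ω : ℕ → Bool, ω ∉ cyl U →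
        |∑ j ∈ Finset.Ico (NN i) p.2, sg ω j *
            trunc (√(2 * Nq κ j (2 ^ J) (dil j p.1))) (Sq ω j (2 ^ J) (dil j p.1))| ≤
          √(2 * L i * ∑ j ∈ Finset.Ico (NN i) p.2, √(2 * Nq κ j (2 ^ J) (dil j p.1)) ^ 2) := by
    rintro ⟨w, k⟩ hp
    obtain ⟨hw, hk⟩ := Finset.mem_product.1 hp
    obtain ⟨U, hU1, hU2⟩ := hAZ (NN (i + 1)) (NN i) k
      (fun j ω => trunc (√(2 * Nq κ j (2 ^ J) (dil j w))) (Sq ω j (2 ^ J) (dil j w)))
      (fun j => √(2 * Nq κ j (2 ^ J) (dil j w))) (L i) (Finset.mem_Icc.1 hk).2 (hL i)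
      (fun j ω => abs_trunc (Real.sqrt_nonneg _))
      (by
        intro j ω ω' hωω
        have h3 := (hREC ω κ (2 ^ J) (dil j w) Nat.one_le_two_pow (by
          intro m hm
          unfold dil
          exact TF_zero hW hw (lt_of_lt_of_le hm (Nat.le_mul_of_pos_left m (pr_prime j).pos)))).2.2.2.2 j ω' hωω
        rw [h3])
    refine ⟨U, hU1, ?_⟩
    intro ω hω
    by_contra hcon
    push Not at hcon
    exact hω (hU2 hcon)
  choose! U hU1 hU2 using h1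
  refine ⟨(TF W (2 ^ J) ×ˢ Finset.Icc (NN i) (NN (i + 1))).biUnion U, ?_, ?_⟩
  · have h2 : (((TF W (2 ^ J) ×ˢ Finset.Icc (NN i) (NN (i + 1))).biUnion U).card : ℝ) ≤
        ∑ p ∈ TF W (2 ^ J) ×ˢ Finset.Icc (NN i) (NN (i + 1)), ((U p).card : ℝ) := by
      exact_mod_cast Finset.card_biUnion_le
    refine h2.trans ((Finset.sum_le_sum hU1).trans ?_)
    rw [Finset.sum_const, Finset.card_product, nsmul_eq_mul, Nat.card_Icc]
    have h3 : ((TF W (2 ^ J)).card : ℝ) ≤ W.card * ((2 : ℝ) ^ J + 1) := by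
      exact_mod_cast TF_card W (2 ^ J)
    have h4 : ((NN (i + 1) + 1 - NN i : ℕ) : ℝ) ≤ (2 : ℝ) ^ J + 1 := by
      have h5 : NN (i + 1) + 1 - NN i ≤ 2 ^ J + 1 := by
        have h6 := NN_le (i + 1)
        have h7 : 2 ^ (i + 1) ≤ 2 ^ J := Nat.pow_le_pow_right (by norm_num) hi
        omega
      exact_mod_cast h5
    have h5 : (0 : ℝ) ≤ 2 * 2 ^ (NN (i + 1)) * Real.exp (-L i) := by positivity
    calc (((TF W (2 ^ J)).card * (NN (i + 1) + 1 - NN i) : ℕ) : ℝ) * (2 * 2 ^ (NN (i + 1)) * Real.exp (-L i))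
        ≤ ((W.card * ((2 : ℝ) ^ J + 1)) * ((2 : ℝ) ^ J + 1)) * (2 * 2 ^ (NN (i + 1)) * Real.exp (-L i)) := by
          refine mul_le_mul_of_nonneg_right ?_ h5
          rw [Nat.cast_mul]
          exact mul_le_mul h3 h4 (Nat.cast_nonneg _) (by positivity)
      _ = _ := by ring
  · intro ω hω w hw k hk1 hk2
    have hp : (w, k) ∈ TF W (2 ^ J) ×ˢ Finset.Icc (NN i) (NN (i + 1)) :=
      Finset.mem_product.2 ⟨TT_sub hW hw, Finset.mem_Icc.2 ⟨hk1, hk2⟩⟩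
    refine hU2 (w, k) hp ω ?_
    intro h3
    apply hω
    unfold cyl at h3 ⊢
    rw [Set.mem_ofPred_eq] at h3 ⊢
    exact Finset.mem_biUnion.2 ⟨(w, k), hp, h3⟩

/-! ## Data processing -/

theorem dpi_use (ν : Measure (ℕ → Bool)) [IsProbabilityMeasure ν] (n : ℕ) (U : Finset (Fin n → Bool)) (K L : ℝ)
    (hU : (U.card : ℝ) ≤ K * 2 ^ n * Real.exp (-L)) (hK : K ≤ Real.exp (L / 2)) :
    ν.real (cyl U) * (L / 2) ≤ D ν n + Real.log 2 := by
  obtain ⟨h0, h1⟩ := Pool.Agent.Q190.IR.t_DPI ν n U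
  have hl2 : 0 < Real.log 2 := Real.log_pos (by norm_num)
  rcases Nat.eq_zero_or_pos U.card with h | h
  · have h2 : U = ∅ := Finset.card_eq_zero.1 h
    have h3 : ν.real (cyl U) = 0 := by
      rw [h2]
      have : (cyl (∅ : Finset (Fin n → Bool))) = ∅ := by
        ext ω
        simp [cyl]
      rw [this]
      simp
    rw [h3, zero_mul]
    linarith
  · have h2 : (0 : ℝ) < U.card := by exact_mod_cast h
    have h3 : (U.card : ℝ) ≤ Real.exp (n * Real.log 2 - L / 2) := by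
      calc (U.card : ℝ) ≤ K * 2 ^ n * Real.exp (-L) := hU
        _ ≤ Real.exp (L / 2) * 2 ^ n * Real.exp (-L) := by gcongr
        _ = Real.exp (n * Real.log 2 - L / 2) := by
            have h4 : (2 : ℝ) ^ n = Real.exp (n * Real.log 2) := by
              rw [← Real.log_pow, Real.exp_log (by positivity)]
            rw [h4, ← Real.exp_add, ← Real.exp_add]
            congr 1
            ring
    have h4 : Real.log U.card ≤ n * Real.log 2 - L / 2 := by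
      rw [← Real.log_exp (n * Real.log 2 - L / 2)]
      exact Real.log_le_log h2 h3
    refine le_trans ?_ h1
    exact mul_le_mul_of_nonneg_left (by linarith) measureReal_nonneg

end Pool.Agent.Q190.EP
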