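import Pool.Agent.Q190.EP.Eng2

/-! # Project EP (helper255), job ENG: assembly -/

set_option autoImplicit false

namespace Pool.Agent.Q190.EP

open Filter Topology MeasureTheory Pool.Agent.Q255.IC Pool.Agent.Q255.IR Pool.Agent.Q255.EP
open scoped ENNReal

/-- the bound for one squarefree sum -/
theorem sq_bound (hDET : S_DET) {δ ε CP : ℝ} (hδ : 0 ≤ δ) (hε : 0 < ε) (hCP : 0 ≤ CP) {J : ℕ} {κ : ℕ → ℝ}
    (hκe : κ = fun k => KK δ ε J (blk k))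
    (hP : ∀ k M : ℕ, M ≤ 2 ^ J → ∑ m ∈ sm k M, ∏ p ∈ m.primeFactors, κ (Nat.count Nat.Prime p) ≤
          CP * (2 : ℝ) ^ (ε * J) * (M : ℝ) ^ (1 + δ + 4 * ε))
    {W : Finset (ℕ → ℝ)} (hW1 : ∀ w ∈ W, ∀ m, |w m| ≤ 1) (hW0 : ∀ w ∈ W, ∀ m, 2 ^ J < m → w m = 0) {ω : ℕ → Bool}
    (hG : Good ω (2 ^ J) κ NN (LL δ ε J) J (TT W)) {w : ℕ → ℝ} (hw : w ∈ W) {M : ℕ} (hM : M ≤ 2 ^ J)
    (hwM : ∀ m, M < m → w m = 0) {r : ℕ} (hr : 1 ≤ r) :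
    |Sq ω (NN J) (2 ^ J) (fun s => w (r ^ 2 * s))| ≤
      √(2 * CP) * (2 : ℝ) ^ (ε * J / 2) * (M : ℝ) ^ ((1 + δ + 4 * ε) / 2) * (r : ℝ) ^ (-(1 + δ + 4 * ε)) := by
  have hκ0 : ∀ k, 0 ≤ κ k := by
    intro k
    rw [hκe]
    exact (KK_pos hε δ J (blk k)).le
  have hr0 : (0 : ℝ) < r := by exact_mod_cast hr
  have hr2 : 1 ≤ r ^ 2 := Nat.one_le_pow _ _ hr
  set v : ℕ → ℝ := fun s => w (r ^ 2 * s) with hv
  have hvT : v ∈ TT W := ⟨w, hw, r ^ 2, hr2, rfl⟩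
  have h1 := hDET ω (2 ^ J) κ (KK δ ε J) NN (LL δ ε J) J (TT W) Nat.one_le_two_pow NN_zero NN_mono
    (fun i => KK_pos hε δ J i) (fun i => (LL_pos δ ε J i).le)
    (fun i k h1 h2 => by rw [hκe]; simp only; rw [blk_eq h1 h2]) hκ0 (sum_LK hε δ J)
    (fun g hg r hr => TT_dil hg hr) (fun g hg m hm => TT_zero hW0 hg hm) hG v hvT (NN J) le_rfl
  have h2 : Nq κ (NN J) (2 ^ J) v ≤ ∑ m ∈ sm (NN J) (M / r ^ 2), ∏ p ∈ m.primeFactors, κ (Nat.count Nat.Prime p) := by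
    unfold Nq
    have hsub : sm (NN J) (M / r ^ 2) ⊆ sm (NN J) (2 ^ J) := by
      intro m hm
      unfold sm at hm ⊢
      rw [Finset.mem_filter, Finset.mem_Icc] at hm ⊢
      exact ⟨⟨hm.1.1, hm.1.2.trans ((Nat.div_le_self _ _).trans hM)⟩, hm.2⟩
    rw [← Finset.sum_subset hsub]
    · refine Finset.sum_le_sum fun m _ => ?_
      have h3 : v m ^ 2 ≤ 1 := by
        rw [← sq_abs]
        exact pow_le_one₀ (abs_nonneg _) (hW1 w hw _)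
      have h4 : 0 ≤ ∏ p ∈ m.primeFactors, κ (Nat.count Nat.Prime p) := Finset.prod_nonneg fun p _ => hκ0 _
      nlinarith
    · intro m hm hm'
      have h3 : M / r ^ 2 < m := by
        by_contra hcon
        push Not at hcon
        apply hm'
        unfold sm at hm ⊢
        rw [Finset.mem_filter, Finset.mem_Icc] at hm ⊢
        exact ⟨⟨hm.1.1, hcon⟩, hm.2⟩
      have h4 : M < r ^ 2 * m := by
        rw [mul_comm]
        exact (Nat.div_lt_iff_lt_mul (by omega)).1 h3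
      have h5 : v m = 0 := hwM _ h4
      rw [h5]
      ring
  have h3 := hP (NN J) (M / r ^ 2) ((Nat.div_le_self _ _).trans hM)
  have h4 : (((M / r ^ 2 : ℕ) : ℝ)) ^ (1 + δ + 4 * ε) ≤ (M : ℝ) ^ (1 + δ + 4 * ε) * (r : ℝ) ^ (-(2 * (1 + δ + 4 * ε))) := by
    have h5 : ((M / r ^ 2 : ℕ) : ℝ) ≤ (M : ℝ) / (r : ℝ) ^ 2 := by
      have := @Nat.cast_div_le ℝ _ _ _ M (r ^ 2)
      push_cast at this
      exact this
    refine (Real.rpow_le_rpow (Nat.cast_nonneg _) h5 (by positivity)).trans (le_of_eq ?_)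
    rw [Real.div_rpow (Nat.cast_nonneg _) (by positivity), div_eq_mul_inv]
    congr 1
    rw [← Real.rpow_natCast, ← Real.rpow_mul hr0.le, ← Real.rpow_neg hr0.le]
    push_cast
    rfl
  refine abs_le_of_sq_le_sq ?_ (by positivity)
  have h5 : (√(2 * CP) * (2 : ℝ) ^ (ε * J / 2) * (M : ℝ) ^ ((1 + δ + 4 * ε) / 2) * (r : ℝ) ^ (-(1 + δ + 4 * ε))) ^ 2 =
      2 * (CP * (2 : ℝ) ^ (ε * J) * ((M : ℝ) ^ (1 + δ + 4 * ε) * (r : ℝ) ^ (-(2 * (1 + δ + 4 * ε))))) := by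
    have e1 : ((2 : ℝ) ^ (ε * J / 2)) ^ 2 = (2 : ℝ) ^ (ε * J) := by
      rw [← Real.rpow_natCast, ← Real.rpow_mul (by norm_num)]
      congr 1
      push_cast
      ring
    have e2 : ((M : ℝ) ^ ((1 + δ + 4 * ε) / 2)) ^ 2 = (M : ℝ) ^ (1 + δ + 4 * ε) := by
      rw [← Real.rpow_natCast, ← Real.rpow_mul (Nat.cast_nonneg _)]
      congr 1
      push_cast
      ring
    have e3 : ((r : ℝ) ^ (-(1 + δ + 4 * ε))) ^ 2 = (r : ℝ) ^ (-(2 * (1 + δ + 4 * ε))) := by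
      rw [← Real.rpow_natCast, ← Real.rpow_mul hr0.le]
      congr 1
      push_cast
      ring
    rw [mul_pow, mul_pow, mul_pow, Real.sq_sqrt (by positivity), e1, e2, e3]
    ring
  rw [h5]
  refine h1.trans (mul_le_mul_of_nonneg_left ?_ (by norm_num))
  refine h2.trans (h3.trans ?_)
  exact mul_le_mul_of_nonneg_left h4 (by positivity)

/-- the bound in the good event -/
theorem good_bound (hFULL : S_FULL) (hDET : S_DET) (hPRD : S_PRD) {δ ε : ℝ} (hδ : 0 ≤ δ) (hε : 0 < ε) (hε1 : ε ≤ 1) :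
    ∃ C : ℝ, 0 ≤ C ∧ ∀ (J : ℕ) (W : Finset (ℕ → ℝ)) (ω : ℕ → Bool), (∀ w ∈ W, ∀ m, |w m| ≤ 1) →
      (∀ w ∈ W, ∀ m, 2 ^ J < m → w m = 0) →
      Good ω (2 ^ J) (fun k => KK δ ε J (blk k)) NN (LL δ ε J) J (TT W) → ∀ w ∈ W, ∀ M : ℕ, 1 ≤ M → M ≤ 2 ^ J →
      (∀ m, M < m → w m = 0) →
      |∑ m ∈ Finset.Icc 1 M, w m * cm ω m| ≤ C * (2 : ℝ) ^ (3 * ε * J) * (M : ℝ) ^ ((1 + δ) / 2) := by
  have h1 := two_rpow_sub hε
  obtain ⟨CP, hCP, hP⟩ := hPRD δ ε (8 / ((2 : ℝ) ^ ε - 1) * (2 : ℝ) ^ (δ + 2 * ε)) hδ hε hε1 (by positivity)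
  set σ : ℝ := 1 + δ + 4 * ε with hσ
  have hsum : Summable fun n : ℕ => ((n : ℝ)) ^ (-σ) := by
    rw [Real.summable_nat_rpow]
    linarith
  set Z : ℝ := ∑' n : ℕ, ((n : ℝ)) ^ (-σ) with hZ
  have hZ0 : 0 ≤ Z := tsum_nonneg fun n => by positivity
  refine ⟨√(2 * CP) * Z, by positivity, ?_⟩
  intro J W ω hW1 hW0 hG w hw M hM1 hM hwM
  have hfull := hFULL ω (2 ^ J) w (hW0 w hw)
  have hsame : ∑ m ∈ Finset.Icc 1 M, w m * cm ω m = ∑ m ∈ Finset.Icc 1 (2 ^ J), w m * cm ω m := by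
    refine Finset.sum_subset (Finset.Icc_subset_Icc_right hM) ?_
    intro m hm hm'
    rw [hwM m, zero_mul]
    rw [Finset.mem_Icc] at hm hm'
    omega
  rw [hsame, hfull]
  have hM0 : (0 : ℝ) < M := by exact_mod_cast hM1
  have hexp : (M : ℝ) ^ (σ / 2) ≤ (2 : ℝ) ^ (2 * ε * J) * (M : ℝ) ^ ((1 + δ) / 2) := by
    have h2 : (M : ℝ) ^ (σ / 2) = (M : ℝ) ^ (2 * ε) * (M : ℝ) ^ ((1 + δ) / 2) := by
      rw [← Real.rpow_add hM0]
      congr 1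
      rw [hσ]
      ring
    rw [h2]
    refine mul_le_mul_of_nonneg_right ?_ (by positivity)
    have h3 : (M : ℝ) ≤ (2 : ℝ) ^ J := by exact_mod_cast hM
    refine (Real.rpow_le_rpow hM0.le h3 (by positivity)).trans (le_of_eq ?_)
    rw [← Real.rpow_natCast, ← Real.rpow_mul (by norm_num)]
    congr 1
    ring
  have hterm : ∀ r ∈ Finset.Icc 1 (2 ^ J), |Sq ω (Nat.primeCounting (2 ^ J)) (2 ^ J) (fun s => w (r ^ 2 * s))| ≤
      √(2 * CP) * (2 : ℝ) ^ (ε * J / 2) * (M : ℝ) ^ (σ / 2) * (r : ℝ) ^ (-σ) := by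
    intro r hr
    refine sq_bound hDET hδ hε hCP (κ := fun k => KK δ ε J (blk k)) rfl ?_ hW1 hW0 hG hw hM hwM (Finset.mem_Icc.1 hr).1
    intro k M hM
    exact hP J (fun k => KK δ ε J (blk k)) (fun k => ⟨(KK_pos hε δ J _).le, KK_le hδ hε J k⟩) k M hM
  calc |∑ r ∈ Finset.Icc (1 : ℕ) (2 ^ J), Sq ω (Nat.primeCounting (2 ^ J)) (2 ^ J) (fun s => w (r ^ 2 * s))|
      ≤ ∑ r ∈ Finset.Icc (1 : ℕ) (2 ^ J), |Sq ω (Nat.primeCounting (2 ^ J)) (2 ^ J) (fun s => w (r ^ 2 * s))| :=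
        Finset.abs_sum_le_sum_abs _ _
    _ ≤ ∑ r ∈ Finset.Icc (1 : ℕ) (2 ^ J), √(2 * CP) * (2 : ℝ) ^ (ε * J / 2) * (M : ℝ) ^ (σ / 2) * (r : ℝ) ^ (-σ) :=
        Finset.sum_le_sum hterm
    _ = √(2 * CP) * (2 : ℝ) ^ (ε * J / 2) * (M : ℝ) ^ (σ / 2) * ∑ r ∈ Finset.Icc (1 : ℕ) (2 ^ J), (r : ℝ) ^ (-σ) := by
        rw [Finset.mul_sum]
    _ ≤ √(2 * CP) * (2 : ℝ) ^ (ε * J / 2) * ((2 : ℝ) ^ (2 * ε * J) * (M : ℝ) ^ ((1 + δ) / 2)) * Z := by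
        refine mul_le_mul (mul_le_mul_of_nonneg_left hexp (by positivity))
          (hsum.sum_le_tsum _ fun n _ => by positivity) (Finset.sum_nonneg fun _ _ => by positivity) (by positivity)
    _ = √(2 * CP) * Z * ((2 : ℝ) ^ (ε * J / 2) * (2 : ℝ) ^ (2 * ε * J)) * (M : ℝ) ^ ((1 + δ) / 2) := by ring
    _ ≤ √(2 * CP) * Z * (2 : ℝ) ^ (3 * ε * J) * (M : ℝ) ^ ((1 + δ) / 2) := by
        refine mul_le_mul_of_nonneg_right (mul_le_mul_of_nonneg_left ?_ (by positivity)) (by positivity)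
        rw [← Real.rpow_add (by norm_num)]
        refine Real.rpow_le_rpow_of_exponent_le (by norm_num) ?_
        have : 0 ≤ ε * (J : ℝ) := by positivity
        linarith

theorem trivial_bound {ω : ℕ → Bool} {w : ℕ → ℝ} (h1 : ∀ m, |w m| ≤ 1) (M : ℕ) :
    |∑ m ∈ Finset.Icc 1 M, w m * cm ω m| ≤ M := by
  refine (Finset.abs_sum_le_sum_abs _ _).trans ?_
  calc ∑ m ∈ Finset.Icc 1 M, |w m * cm ω m| ≤ ∑ m ∈ Finset.Icc 1 M, (1 : ℝ) := by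
        refine Finset.sum_le_sum fun m _ => ?_
        rw [abs_mul, Pool.Agent.Q13.EP.abs_cm, mul_one]
        exact h1 m
    _ = M := by simp

theorem one_eps (h1 : S_REC) (h2 : S_FULL) (h3 : S_AZ) (h4 : S_DET) (h5 : S_PRD)
    (ν : Measure (ℕ → Bool)) [IsProbabilityMeasure ν] {δ : ℝ} (hδ : 0 ≤ δ)
    (hD : ∀ ε : ℝ, 0 < ε → ∀ᶠ x : ℕ in atTop, D ν (Nat.primeCounting x) ≤ (x : ℝ) ^ (δ + ε))
    (W : ℕ → Finset (ℕ → ℝ)) (A : ℝ) (hW1 : ∀ J, ∀ w ∈ W J, ∀ m, |w m| ≤ 1)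
    (hW0 : ∀ J, ∀ w ∈ W J, ∀ m, 2 ^ J < m → w m = 0)
    (hWc : ∀ J, ((W J).card : ℝ) ≤ Real.exp (A * ((J : ℝ) + 1))) {ε : ℝ} (hε : 0 < ε) (hε1 : ε ≤ 1) :
    ∀ᵐ ω ∂ν, ∃ C : ℝ, 0 ≤ C ∧ ∀ J, ∀ w ∈ W J, ∀ M : ℕ, (∀ m, M < m → w m = 0) →
        |∑ m ∈ Finset.Icc 1 M, w m * cm ω m| ≤ C * (2 : ℝ) ^ (3 * ε * J) * (M : ℝ) ^ ((1 + δ) / 2) := by
  obtain ⟨C1, hC1, hgood⟩ := good_bound h2 h4 h5 hδ hε hε1
  filter_upwards [prob h1 h3 ν hδ hε hD W A hW0 hWc] with ω hω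
  obtain ⟨J1, hJ1⟩ := eventually_atTop.1 hω
  refine ⟨C1 + 2 ^ J1, by positivity, ?_⟩
  intro J w hw M hwM
  -- reduction to `M ≤ 2 ^ J`
  have key : ∀ M : ℕ, M ≤ 2 ^ J → (∀ m, M < m → w m = 0) →
      |∑ m ∈ Finset.Icc 1 M, w m * cm ω m| ≤ (C1 + 2 ^ J1) * (2 : ℝ) ^ (3 * ε * J) * (M : ℝ) ^ ((1 + δ) / 2) := by
    intro M hM hwM
    rcases Nat.eq_zero_or_pos M with rfl | hM1
    · simp
      positivity
    · have hM0 : (1 : ℝ) ≤ M := by exact_mod_cast hM1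
      have hg1 : (1 : ℝ) ≤ (2 : ℝ) ^ (3 * ε * J) := Real.one_le_rpow (by norm_num) (by positivity)
      have hg2 : (1 : ℝ) ≤ (M : ℝ) ^ ((1 + δ) / 2) := Real.one_le_rpow hM0 (by positivity)
      have hg3 : (1 : ℝ) ≤ (2 : ℝ) ^ (3 * ε * J) * (M : ℝ) ^ ((1 + δ) / 2) := one_le_mul_of_one_le_of_one_le hg1 hg2
      rw [mul_assoc]
      rcases Nat.lt_or_ge J J1 with h | h
      · have h6 := trivial_bound (ω := ω) (hW1 J w hw) M
        have h7 : (M : ℝ) ≤ (2 : ℝ) ^ J1 := by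
          have h8 : M ≤ 2 ^ J1 := hM.trans (Nat.pow_le_pow_right (by norm_num) h.le)
          exact_mod_cast h8
        have h8 : (0 : ℝ) < (2 : ℝ) ^ J1 := by positivity
        nlinarith
      · have h6 := hgood J (W J) ω (hW1 J) (hW0 J) (hJ1 J h) w hw M hM1 hM hwM
        rw [mul_assoc] at h6
        have h8 : (0 : ℝ) < (2 : ℝ) ^ J1 := by positivity
        nlinarith
  rcases Nat.lt_or_ge (2 ^ J) M with h | h
  · have h6 := key (2 ^ J) le_rfl (hW0 J w hw)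
    have h7 : ∑ m ∈ Finset.Icc 1 M, w m * cm ω m = ∑ m ∈ Finset.Icc 1 (2 ^ J), w m * cm ω m := by
      symm
      refine Finset.sum_subset (Finset.Icc_subset_Icc_right h.le) ?_
      intro m hm hm'
      rw [hW0 J w hw m, zero_mul]
      rw [Finset.mem_Icc] at hm hm'
      omega
    rw [h7]
    refine h6.trans (mul_le_mul_of_nonneg_left ?_ (by positivity))
    exact Real.rpow_le_rpow (Nat.cast_nonneg _) (by exact_mod_cast h.le) (by positivity)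
  · exact key M h hwM

theorem eng (h1 : S_REC) (h2 : S_FULL) (h3 : S_AZ) (h4 : S_DET) (h5 : S_PRD) : S_ENG := by
  intro ν _ δ hδ hD W A hW1 hW0 hWc
  have h6 : ∀ᵐ ω ∂ν, ∀ j : ℕ, ∃ C : ℝ, 0 ≤ C ∧ ∀ J, ∀ w ∈ W J, ∀ M : ℕ, (∀ m, M < m → w m = 0) →
        |∑ m ∈ Finset.Icc 1 M, w m * cm ω m| ≤
          C * (2 : ℝ) ^ (3 * (1 / ((j : ℝ) + 1)) * J) * (M : ℝ) ^ ((1 + δ) / 2) := by
    rw [ae_all_iff]
    intro j
    refine one_eps h1 h2 h3 h4 h5 ν hδ hD W A hW1 hW0 hWc (by positivity) ?_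
    rw [div_le_one (by positivity)]
    have : (0 : ℝ) ≤ j := Nat.cast_nonneg j
    linarith
  filter_upwards [h6] with ω hω
  intro ε hε
  obtain ⟨j, hj⟩ := exists_nat_gt (3 / ε)
  obtain ⟨C, hC0, hC⟩ := hω j
  refine ⟨C, fun J w hw M hwM => (hC J w hw M hwM).trans ?_⟩
  refine mul_le_mul_of_nonneg_right (mul_le_mul_of_nonneg_left ?_ hC0) (by positivity)
  refine Real.rpow_le_rpow_of_exponent_le (by norm_num) ?_
  refine mul_le_mul_of_nonneg_right ?_ (Nat.cast_nonneg J)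
  rw [div_lt_iff₀ hε] at hj
  rw [mul_one_div, div_le_iff₀ (by positivity)]
  nlinarith

end Pool.Agent.Q190.EP
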